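import Mathlib
import Pool.Agent.LibGP48.FIN0

/-!
# MP_419902_al, Q1: a gap below `exp (n^(2/7))`, modulo perfect groups

A finitely generated group whose growth function is at most `exp (n^β)` for all large `n`, for some
`β < 2/7`, is virtually nilpotent modulo a finitely generated perfect normal subgroup; if it is
residually soluble, it is virtually nilpotent.
-/

namespace Pool.Agent.Results.MP_419902_al.GapTwoSevenths

open GP48

universe u

theorem result (G : Type u) [Group G] (S : Finset G) (hS : Subgroup.closure (S : Set G) = ⊤)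
    (β : ℝ) (hβ : β < 2 / 7)
    (hgrowth : ∀ᶠ n : ℕ in Filter.atTop,
      (({g : G | ∃ l : List G, l.length ≤ n ∧ (∀ x ∈ l, x ∈ S ∨ x⁻¹ ∈ S) ∧
        l.prod = g}.ncard : ℕ) : ℝ) ≤ Real.exp ((n : ℝ) ^ β)) :
    (∃ m, (derivedSeries G m).FG ∧ derivedSeries G m = derivedSeries G (m + 1) ∧
      ∃ H : Subgroup (G ⧸ derivedSeries G m), H.FiniteIndex ∧ Group.IsNilpotent H) ∧
    ((⨅ m, derivedSeries G m) = ⊥ →
      ∃ H : Subgroup G, H.FiniteIndex ∧ Group.IsNilpotent H) := by
  obtain ⟨h1, ⟨m, h2, h3⟩, h4⟩ :=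
    UNI (fun S h1 h2 β h3 h4 h5 => FIN0 S h1 h2 β h3 h4 h5) (S : Set G) S.finite_toSet hS β hβ
      hgrowth
  exact ⟨⟨m, h1 m, h2, h3⟩, h4⟩

end Pool.Agent.Results.MP_419902_al.GapTwoSevenths
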