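import Mathlib

/-!
# MP_419902_al, Q1: normal closures in groups whose growth does not dominate `exp (sqrt n)`

If `G` is a finitely generated group whose growth function is not at least `exp (sqrt n)`
(in the sense of the frozen statement), then for every finitely generated subgroup `H` of `G` and
every finite subset `A` of `H` the normal closure of `A` in `H` is a finitely generated group.
-/

open scoped Pointwise

namespace Pool.Agent.Results.MP_419902_al.NormalClosures

variable {G : Type*} [Group G]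

/-- elements that are words of length at most `n` -/
def wball (S : Set G) (n : ℕ) : Set G :=
  {g : G | ∃ l : List G, l.length ≤ n ∧ (∀ x ∈ l, x ∈ S ∨ x⁻¹ ∈ S) ∧ l.prod = g}

lemma wball_one (S : Set G) (n : ℕ) : (1 : G) ∈ wball S n :=
  ⟨[], by simp, by simp, by simp⟩

lemma wball_mono (S : Set G) {m n : ℕ} (h : m ≤ n) : wball S m ⊆ wball S n := by
  rintro g ⟨l, h1, h2, h3⟩
  exact ⟨l, h1.trans h, h2, h3⟩

lemma wball_mul {S : Set G} {m n : ℕ} {g h : G} (hg : g ∈ wball S m) (hh : h ∈ wball S n) :
    g * h ∈ wball S (m + n) := by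
  obtain ⟨l, h1, h2, h3⟩ := hg
  obtain ⟨l', h1', h2', h3'⟩ := hh
  refine ⟨l ++ l', by simp; omega, ?_, by simp [h3, h3']⟩
  intro x hx
  rcases List.mem_append.1 hx with hx | hx
  · exact h2 x hx
  · exact h2' x hx

lemma wball_inv {S : Set G} {m : ℕ} {g : G} (hg : g ∈ wball S m) : g⁻¹ ∈ wball S m := by
  obtain ⟨l, h1, h2, h3⟩ := hg
  refine ⟨(l.map (·⁻¹)).reverse, by simpa using h1, ?_, ?_⟩
  · intro x hx
    simp only [List.mem_reverse, List.mem_map] at hx
    obtain ⟨y, hy, rfl⟩ := hx
    rcases h2 y hy with h | h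
    · exact Or.inr (by simpa using h)
    · exact Or.inl h
  · rw [← h3, List.prod_inv_reverse]

lemma wball_gen {S : Set G} {g : G} (hg : g ∈ S) : g ∈ wball S 1 :=
  ⟨[g], by simp, by simp [hg], by simp⟩

lemma exists_wball {S : Set G} {g : G} (hg : g ∈ Subgroup.closure S) : ∃ n, g ∈ wball S n := by
  induction hg using Subgroup.closure_induction with
  | mem x hx => exact ⟨1, wball_gen hx⟩
  | one => exact ⟨0, wball_one S 0⟩
  | mul x y _ _ hx hy =>
    obtain ⟨m, hm⟩ := hx
    obtain ⟨n, hn⟩ := hy
    exact ⟨m + n, wball_mul hm hn⟩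
  | inv x _ hx =>
    obtain ⟨m, hm⟩ := hx
    exact ⟨m, wball_inv hm⟩

lemma wball_finite {S : Set G} (hS : S.Finite) (n : ℕ) : (wball S n).Finite := by
  induction n with
  | zero =>
    refine (Set.finite_singleton (1 : G)).subset ?_
    rintro g ⟨l, h1, _, h3⟩
    have : l = [] := List.length_eq_zero_iff.1 (by omega)
    subst this
    simpa using h3.symm
  | succ n ih =>
    have hT : (S ∪ S⁻¹).Finite := hS.union hS.inv
    refine ((hT.mul ih).union (Set.finite_singleton (1 : G))).subset ?_
    rintro g ⟨l, h1, h2, h3⟩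
    cases l with
    | nil => right; simpa using h3.symm
    | cons a l =>
      left
      refine ⟨a, ?_, l.prod, ⟨l, by simpa using h1, fun x hx => h2 x (by simp [hx]), rfl⟩, by
        simpa using h3⟩
      rcases h2 a (by simp) with h | h
      · exact Or.inl h
      · exact Or.inr (by simpa using h)

/-- words in a set of elements of length at most `c` -/
lemma wball_comp {S T : Set G} {c : ℕ} (hT : ∀ t ∈ T, t ∈ wball S c) {n : ℕ} {g : G}
    (hg : g ∈ wball T n) : g ∈ wball S (c * n) := by
  obtain ⟨l, h1, h2, h3⟩ := hg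
  induction l generalizing n g with
  | nil =>
    subst h3
    exact wball_one S _
  | cons a l ih =>
    subst h3
    obtain ⟨m, rfl⟩ : ∃ m, n = m + 1 := ⟨n - 1, by simp at h1; omega⟩
    have ha : a ∈ wball S c := by
      rcases h2 a (by simp) with h | h
      · exact hT a h
      · simpa using wball_inv (hT _ h)
    have := wball_mul ha (ih (n := m) (by simpa using h1) (fun x hx => h2 x (by simp [hx])) rfl)
    rw [List.prod_cons]
    refine wball_mono S ?_ this
    ring_nf
    exact le_refl _

/-- the subgroup generated by the conjugates of `A` by the words of length at most `k` -/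
def cl (S A : Set G) (k : ℕ) : Subgroup G :=
  Subgroup.closure {x | ∃ a ∈ A, ∃ g ∈ wball S k, x = g⁻¹ * a * g}

lemma cl_mono (S A : Set G) {k m : ℕ} (h : k ≤ m) : cl S A k ≤ cl S A m := by
  refine Subgroup.closure_mono ?_
  rintro x ⟨a, ha, g, hg, rfl⟩
  exact ⟨a, ha, g, wball_mono S h hg, rfl⟩

lemma cl_le (S A : Set G) (k : ℕ) : cl S A k ≤ Subgroup.normalClosure A := by
  refine (Subgroup.closure_le _).2 ?_
  rintro x ⟨a, ha, g, -, rfl⟩
  have := (Subgroup.normalClosure_normal (s := A)).conj_mem a (Subgroup.subset_normalClosure ha) g⁻¹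
  simpa using this

/-- once the chain stops it has reached the normal closure -/
lemma cl_stop {S A : Set G} (hS : Subgroup.closure S = ⊤) {k : ℕ}
    (h : cl S A (k + 1) ≤ cl S A k) : cl S A k = Subgroup.normalClosure A := by
  refine le_antisymm (cl_le S A k) ?_
  have hs : ∀ s ∈ wball S 1, ∀ x ∈ cl S A k, s⁻¹ * x * s ∈ cl S A k := by
    intro s hs x hx
    refine h ?_
    induction hx using Subgroup.closure_induction with
    | mem x hx =>
      obtain ⟨a, ha, g, hg, rfl⟩ := hx
      refine Subgroup.subset_closure ⟨a, ha, g * s, wball_mul hg hs, by group⟩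
    | one => simp
    | mul x y _ _ hx hy =>
      have := Subgroup.mul_mem _ hx hy
      have e : s⁻¹ * x * s * (s⁻¹ * y * s) = s⁻¹ * (x * y) * s := by group
      rwa [e] at this
    | inv x _ hx =>
      have := Subgroup.inv_mem _ hx
      have e : (s⁻¹ * x * s)⁻¹ = s⁻¹ * x⁻¹ * s := by group
      rwa [e] at this
  have hall : ∀ g ∈ Subgroup.closure S, ∀ x ∈ cl S A k, g⁻¹ * x * g ∈ cl S A k := by
    have aux : ∀ (l : List G), (∀ x ∈ l, x ∈ S ∨ x⁻¹ ∈ S) → ∀ x ∈ cl S A k,
        l.prod⁻¹ * x * l.prod ∈ cl S A k := by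
      intro l
      induction l with
      | nil => intro _ x hx; simpa using hx
      | cons a l ih =>
        intro hl x hx
        have ha : a ∈ wball S 1 := ⟨[a], by simp, by simpa using hl a (by simp), by simp⟩
        have := ih (fun y hy => hl y (by simp [hy])) _ (hs a ha x hx)
        rw [List.prod_cons]
        have e : l.prod⁻¹ * (a⁻¹ * x * a) * l.prod = (a * l.prod)⁻¹ * x * (a * l.prod) := by group
        rwa [e] at this
    intro g hg x hx
    obtain ⟨n, l, -, h2, rfl⟩ := exists_wball hg
    exact aux l h2 x hx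
  have hn : (cl S A k).Normal := by
    constructor
    intro x hx g
    have := hall g⁻¹ (by rw [hS]; trivial) x hx
    simpa using this
  refine Subgroup.normalClosure_le_normal ?_
  intro a ha
  exact Subgroup.subset_closure ⟨a, ha, 1, wball_one S k, by simp⟩

/-- the counting lemma -/
lemma pow_le_ncard {S A : Set G} (hSf : S.Finite) (hS : Subgroup.closure S = ⊤) {r : ℕ}
    (hA : ∀ a ∈ A, a ∈ wball S r) (hne : ∀ k, cl S A k ≠ Subgroup.normalClosure A) (k : ℕ) :
    2 ^ k ≤ (wball S (k * (r + k + 1))).ncard := by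
  classical
  have hx : ∀ k, ∃ x ∈ wball S (r + 2 * (k + 1)), x ∈ cl S A (k + 1) ∧ x ∉ cl S A k := by
    intro k
    by_contra hcon
    push Not at hcon
    refine hne k (cl_stop hS ?_)
    refine (Subgroup.closure_le _).2 ?_
    rintro x ⟨a, ha, g, hg, rfl⟩
    refine hcon _ ?_ (Subgroup.subset_closure ⟨a, ha, g, hg, rfl⟩)
    have := wball_mul (wball_mul (wball_inv hg) (hA a ha)) hg
    exact wball_mono S (by omega) this
  choose x hx1 hx2 hx3 using hx
  have key : ∀ k, ∃ P : Finset G, P.card = 2 ^ k ∧ (∀ p ∈ P, p ∈ wball S (k * (r + k + 1))) ∧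
      ∀ p ∈ P, p ∈ cl S A k := by
    intro k
    induction k with
    | zero =>
      refine ⟨{1}, by simp, ?_, ?_⟩
      · intro p hp
        rw [Finset.mem_singleton.1 hp]
        exact wball_one S _
      · intro p hp
        rw [Finset.mem_singleton.1 hp]
        exact Subgroup.one_mem _
    | succ k ih =>
      obtain ⟨P, h1, h2, h3⟩ := ih
      refine ⟨P ∪ P.image (· * x k), ?_, ?_, ?_⟩
      · rw [Finset.card_union_of_disjoint, Finset.card_image_of_injective _ (mul_left_injective _),
          h1]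
        · ring
        · rw [Finset.disjoint_left]
          intro p hp hp'
          obtain ⟨q, hq, rfl⟩ := Finset.mem_image.1 hp'
          refine hx3 k ?_
          have := Subgroup.mul_mem _ (Subgroup.inv_mem _ (h3 q hq)) (h3 _ hp)
          simpa using this
      · intro p hp
        rcases Finset.mem_union.1 hp with hp | hp
        · refine wball_mono S ?_ (h2 p hp)
          nlinarith
        · obtain ⟨q, hq, rfl⟩ := Finset.mem_image.1 hp
          refine wball_mono S ?_ (wball_mul (h2 q hq) (hx1 k))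
          nlinarith
      · intro p hp
        rcases Finset.mem_union.1 hp with hp | hp
        · exact cl_mono S A (Nat.le_succ k) (h3 p hp)
        · obtain ⟨q, hq, rfl⟩ := Finset.mem_image.1 hp
          exact Subgroup.mul_mem _ (cl_mono S A (Nat.le_succ k) (h3 q hq)) (hx2 k)
  obtain ⟨P, h1, h2, -⟩ := key k
  rw [← h1, ← Set.ncard_coe_finset]
  exact Set.ncard_le_ncard (fun p hp => h2 p hp) (wball_finite hSf _)

/-- a normal closure which is not finitely generated forces growth at least `exp (sqrt n)` -/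
lemma exp_le {S : Set G} (hSf : S.Finite) {c r : ℕ}
    (h : ∀ k : ℕ, 2 ^ k ≤ (wball S (c * (k * (r + k + 1)))).ncard) :
    ∃ C : ℕ, 0 < C ∧ ∀ n : ℕ, Real.exp (Real.sqrt (n : ℝ)) ≤ (C : ℝ) *
      ((wball S (C * n)).ncard : ℝ) := by
  refine ⟨c * (4 * r + 20) + 1, Nat.succ_pos _, ?_⟩
  intro n
  set C := c * (4 * r + 20) + 1 with hC
  have hC1 : (1 : ℝ) ≤ (C : ℝ) := by
    have : 1 ≤ C := by omega
    exact_mod_cast this
  rcases Nat.eq_zero_or_pos n with rfl | hn
  · have h0 := h 0
    simp only [zero_mul, mul_zero, pow_zero] at h0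
    simp only [Nat.cast_zero, Real.sqrt_zero, Real.exp_zero, mul_zero]
    have h1 : (1 : ℝ) ≤ ((wball S 0).ncard : ℝ) := by exact_mod_cast h0
    nlinarith
  · set s := Nat.sqrt n with hs
    have hs1 : 1 ≤ s := by rw [hs, Nat.le_sqrt]; omega
    have hsn : s * s ≤ n := Nat.sqrt_le n
    have hlt : Real.sqrt (n : ℝ) ≤ (s : ℝ) + 1 := by
      rw [Real.sqrt_le_left (by positivity)]
      have : n < (s + 1) * (s + 1) := Nat.lt_succ_sqrt n
      have h2 : (n : ℝ) < ((s : ℝ) + 1) * ((s : ℝ) + 1) := by exact_mod_cast this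
      nlinarith
    have h2 := h (2 * (s + 1))
    have hle : c * (2 * (s + 1) * (r + 2 * (s + 1) + 1)) ≤ C * n := by
      have e1 : 2 * (s + 1) * (r + 2 * (s + 1) + 1) ≤ (4 * r + 20) * n := by
        have e2 : s ≤ n := le_trans (Nat.le_mul_of_pos_left s hs1) hsn
        nlinarith [Nat.mul_le_mul_left r e2, Nat.mul_le_mul_left r hn, Nat.zero_le r, Nat.zero_le s]
      calc c * (2 * (s + 1) * (r + 2 * (s + 1) + 1)) ≤ c * ((4 * r + 20) * n) :=
            Nat.mul_le_mul_left c e1
        _ = (c * (4 * r + 20)) * n := by ring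
        _ ≤ C * n := Nat.mul_le_mul_right n (by omega)
    have h3 : (wball S (c * (2 * (s + 1) * (r + 2 * (s + 1) + 1)))).ncard ≤
        (wball S (C * n)).ncard :=
      Set.ncard_le_ncard (wball_mono S hle) (wball_finite hSf _)
    have h4 : ((2 : ℝ) ^ (2 * (s + 1))) ≤ ((wball S (C * n)).ncard : ℝ) := by
      exact_mod_cast h2.trans h3
    have h5 : Real.exp (Real.sqrt (n : ℝ)) ≤ (2 : ℝ) ^ (2 * (s + 1)) := by
      calc Real.exp (Real.sqrt (n : ℝ)) ≤ Real.exp (((s + 1 : ℕ) : ℝ) * 1) :=
            Real.exp_le_exp.2 (by push_cast; linarith)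
        _ = (Real.exp 1) ^ (s + 1) := by rw [Real.exp_nat_mul]
        _ ≤ (4 : ℝ) ^ (s + 1) := by
            refine pow_le_pow_left₀ (Real.exp_pos 1).le ?_ _
            have := Real.exp_one_lt_d9
            linarith
        _ = (2 : ℝ) ^ (2 * (s + 1)) := by rw [pow_mul]; norm_num
    have h6 : (0 : ℝ) ≤ ((wball S (C * n)).ncard : ℝ) := by positivity
    nlinarith

/-- **Theorem.** Let `G` be a group with finite generating set `S` whose growth function does not
dominate `exp (sqrt n)`. Then for every finitely generated subgroup `H` of `G` and every finite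
subset `A` of `H` the normal closure of `A` in `H` is finitely generated. -/
theorem result (G : Type*) [Group G] (S : Finset G) (hS : Subgroup.closure (S : Set G) = ⊤)
    (hgrowth : ¬ ∃ C : ℕ, 0 < C ∧ ∀ n : ℕ,
      Real.exp (Real.sqrt (n : ℝ)) ≤ (C : ℝ) * (({g : G | ∃ l : List G, l.length ≤ C * n ∧
        (∀ x ∈ l, x ∈ S ∨ x⁻¹ ∈ S) ∧ l.prod = g}.ncard : ℕ) : ℝ))
    (H : Subgroup G) (hH : H.FG) (A : Finset H) :
    (Subgroup.normalClosure (A : Set H)).FG := by
  classical
  by_contra hcon
  refine hgrowth ?_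
  obtain ⟨T, hT⟩ : (⊤ : Subgroup H).FG := (Group.fg_iff_subgroup_fg H).2 hH |>.out
  have hball : ∀ (F : Finset H), ∃ c, ∀ t ∈ F, (t : G) ∈ wball (S : Set G) c := by
    intro F
    induction F using Finset.induction_on with
    | empty => exact ⟨0, by simp⟩
    | insert a F _ ih =>
      obtain ⟨c, hc⟩ := ih
      obtain ⟨d, hd⟩ := exists_wball (S := (S : Set G)) (g := (a : G)) (by rw [hS]; trivial)
      refine ⟨c + d, ?_⟩
      intro t ht
      rcases Finset.mem_insert.1 ht with rfl | ht
      · exact wball_mono _ (by omega) hd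
      · exact wball_mono _ (by omega) (hc t ht)
  have hballT : ∀ (F : Finset H), ∃ c, ∀ t ∈ F, t ∈ wball (T : Set H) c := by
    intro F
    induction F using Finset.induction_on with
    | empty => exact ⟨0, by simp⟩
    | insert a F _ ih =>
      obtain ⟨c, hc⟩ := ih
      obtain ⟨d, hd⟩ := exists_wball (S := (T : Set H)) (g := a) (by rw [hT]; trivial)
      refine ⟨c + d, ?_⟩
      intro t ht
      rcases Finset.mem_insert.1 ht with rfl | ht
      · exact wball_mono _ (by omega) hd
      · exact wball_mono _ (by omega) (hc t ht)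
  obtain ⟨c, hc⟩ := hball T
  obtain ⟨r, hr⟩ := hballT A
  have hne : ∀ k, cl (T : Set H) (A : Set H) k ≠ Subgroup.normalClosure (A : Set H) := by
    intro k hk
    refine hcon ?_
    rw [← hk, cl, Subgroup.fg_iff]
    refine ⟨_, rfl, ?_⟩
    have hf := wball_finite T.finite_toSet k
    have : {x | ∃ a ∈ (A : Set H), ∃ g ∈ wball (T : Set H) k, x = g⁻¹ * a * g} =
        (fun p : H × H => p.2⁻¹ * p.1 * p.2) '' ((A : Set H) ×ˢ wball (T : Set H) k) := by
      ext x
      constructor
      · rintro ⟨a, ha, g, hg, rfl⟩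
        exact ⟨(a, g), ⟨ha, hg⟩, rfl⟩
      · rintro ⟨⟨a, g⟩, ⟨ha, hg⟩, rfl⟩
        exact ⟨a, ha, g, hg, rfl⟩
    rw [this]
    exact (A.finite_toSet.prod hf).image _
  have h2 := pow_le_ncard T.finite_toSet hT (fun a ha => hr a ha) hne
  refine exp_le (S := (S : Set G)) S.finite_toSet (c := c) (r := r) ?_
  intro k
  refine (h2 k).trans ?_
  have hsub : (Subtype.val '' (wball (T : Set H) (k * (r + k + 1)))) ⊆
      wball (S : Set G) (c * (k * (r + k + 1))) := by
    rintro g ⟨x, ⟨l, h1, h3, rfl⟩, rfl⟩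
    refine wball_comp (T := Subtype.val '' (T : Set H)) ?_
      ⟨l.map Subtype.val, by simpa using h1, ?_, ?_⟩
    · rintro t ⟨y, hy, rfl⟩
      exact hc y hy
    · intro y hy
      obtain ⟨z, hz, rfl⟩ := List.mem_map.1 hy
      rcases h3 z hz with h | h
      · exact Or.inl ⟨z, h, rfl⟩
      · exact Or.inr ⟨z⁻¹, h, by simp⟩
    · have := map_list_prod H.subtype l
      simpa using this.symm
  calc (wball (T : Set H) (k * (r + k + 1))).ncard
      = (Subtype.val '' (wball (T : Set H) (k * (r + k + 1)))).ncard :=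
        (Set.ncard_image_of_injective _ Subtype.val_injective).symm
    _ ≤ _ := Set.ncard_le_ncard hsub (wball_finite S.finite_toSet _)

end Pool.Agent.Results.MP_419902_al.NormalClosures
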