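import Mathlib
import Pool.Agent.LibGT48.TREE

/-!
# MP_419902_al, Q1: a growth gap for residually finite groups with bounded nonabelian
composition factors, and for groups acting on rooted trees of bounded valency
-/

namespace Pool.Agent.Results.MP_419902_al.RootedTrees

open GP48 GT48

universe u v

/-- the growth function: the number of products of at most `n` elements of `S` and inverses -/
noncomputable def growth {G : Type u} [Group G] (S : Finset G) (n : ℕ) : ℕ :=
  {g : G | ∃ l : List G, l.length ≤ n ∧ (∀ x ∈ l, x ∈ S ∨ x⁻¹ ∈ S) ∧ l.prod = g}.ncard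

/-- `S` generates `G`, and the growth function is at most `exp (n ^ β)` for all large `n` -/
def SmallGrowth {G : Type u} [Group G] (S : Finset G) (β : ℝ) : Prop :=
  Subgroup.closure (S : Set G) = ⊤ ∧
    ∀ᶠ n : ℕ in Filter.atTop, (growth S n : ℝ) ≤ Real.exp ((n : ℝ) ^ β)

/-- the nonabelian simple quotients `M / L` with `L` normal in a subgroup `M` have order at
most `B` -/
def BoundedSections (B : ℕ) (Q : Type u) [Group Q] : Prop :=
  ∀ (M : Subgroup Q) (L : Subgroup M) [L.Normal], IsSimpleGroup (M ⧸ L) →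
    (∃ a b : M ⧸ L, a * b ≠ b * a) → Nat.card (M ⧸ L) ≤ B

/-- each `x ≠ 1` is outside a normal subgroup `N` of finite index with `G / N` as above -/
def Residually (B : ℕ) (G : Type u) [Group G] : Prop :=
  ∀ x : G, x ≠ 1 → ∃ (N : Subgroup G) (_ : N.Normal), N.FiniteIndex ∧ x ∉ N ∧
    BoundedSections B (G ⧸ N)

/-- `G` has a nilpotent subgroup of finite index -/
def VirtuallyNilpotent (G : Type u) [Group G] : Prop :=
  ∃ H : Subgroup G, H.FiniteIndex ∧ Group.IsNilpotent H

/-- `G` acts faithfully on the rooted tree with levels `V n` and parent maps `π n`; every vertex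
has at most `d` children -/
def TreeAction (d : ℕ) (G : Type u) [Group G] (V : ℕ → Type v) [∀ n, MulAction G (V n)]
    (π : ∀ n, V (n + 1) → V n) : Prop :=
  (∀ n (g : G) (v : V (n + 1)), π n (g • v) = g • π n v) ∧ Subsingleton (V 0) ∧
    (∀ n (v : V n), {w | π n w = v}.encard ≤ d) ∧
    ∀ g : G, (∀ n (v : V n), g • v = v) → g = 1

theorem result :
    (∀ B : ℕ, ∃ β : ℝ, 0 < β ∧ ∀ (G : Type u) [Group G] (S : Finset G),
      SmallGrowth S β → Residually B G → VirtuallyNilpotent G) ∧
    (∀ d : ℕ, ∃ β : ℝ, 0 < β ∧ ∀ (G : Type u) [Group G] (S : Finset G),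
      SmallGrowth S β → ∀ (V : ℕ → Type v) [∀ n, MulAction G (V n)]
        (π : ∀ n, V (n + 1) → V n), TreeAction d G V π → VirtuallyNilpotent G) := by
  refine ⟨fun B => ?_, fun d => ?_⟩
  · obtain ⟨β, h0, h1⟩ := FIN.{u} B
    exact ⟨β, h0, fun G _ S hS hres => h1 G S hS.1 hS.2 hres⟩
  · obtain ⟨β, h0, h1⟩ := TREE.{u, v} d
    exact ⟨β, h0, fun G _ S hS V _ π ha => h1 G S hS.1 hS.2 V π ha.1 ha.2.1 ha.2.2.1 ha.2.2.2⟩

end Pool.Agent.Results.MP_419902_al.RootedTrees
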